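import Pool.Agent.N755.WS.Mom
import Pool.Agent.N102.MW.Dim

/-! # The exceptional leading coefficients of weighted sums (helper755, after helper102) -/

set_option autoImplicit false

open Finset MeasureTheory

namespace Pool.Agent.N755.WS

open Pool.Agent.W928.MW (ev_pow ev_log)
open Pool.Agent.TH181.MW (J)
open Pool.Agent.N102.MW (BdJ)

/-- bad leading coefficients at scale `2^i` -/
def BB (c : ℕ → ℂ) (k : ℕ) (θ : ℝ) (j : ℤ) (i : ℕ) : Set ℝ :=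
  {t : ℝ | t ∈ Set.Icc (j : ℝ) ((j : ℝ) + 1) ∧ ∃ M : ℕ, M ≤ 2 ^ i ∧ 2 ^ i ≤ 2 * M ∧ ∃ ξ : ℝ,
    (M : ℝ) ^ θ < ‖sw c k M t ξ‖}

theorem cover (c : ℕ → ℂ) (hc : ∀ n, ‖c n‖ ≤ 1) (s m k : ℕ) (hs : 1 ≤ s) (hB : BdJ s m k)
    (θ κ : ℝ) (hθ0 : 0 < θ) (hκ : 0 < κ) (j : ℤ) :
    ∃ i0 : ℕ, ∀ i : ℕ, i0 ≤ i → ∃ S : Finset ℝ,
      (S.card : ℝ) ≤ ((2 : ℝ) ^ i) ^ (1 + 2 * (s : ℝ) - m - 2 * s * θ + k + κ) ∧
      BB c k θ j i ⊆ ⋃ x ∈ S, Set.Icc x (x + ((2 : ℝ) ^ i) ^ (-(k : ℝ))) := by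
  have hs0 : (0 : ℝ) < s := by exact_mod_cast hs
  set ε' : ℝ := κ / (8 * s) with hε'd
  have hε' : 0 < ε' := by positivity
  obtain ⟨C, hC0, hC⟩ := hB (κ / 4) (by positivity)
  set K0 : ℝ := 1 + 2 * Real.pi * 2 ^ k with hK0
  have hK00 : 0 < K0 := by positivity
  obtain ⟨i1, h1⟩ := ev_log ε' hε' (K0 * (2 : ℝ) ^ θ)
  obtain ⟨i3, h3⟩ := ev_pow (κ / 2) (by positivity) (((s : ℝ) + 1) * (3 * C))
  refine ⟨i1 + i3, fun i hi => ?_⟩
  have g1 := h1 i (by omega)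
  have g3 := h3 i (by omega)
  set X : ℝ := (2 : ℝ) ^ i with hX
  have hX1 : (1 : ℝ) ≤ X := one_le_pow₀ (by norm_num)
  have hX0 : (0 : ℝ) < X := by positivity
  have hNX : (((2 ^ i : ℕ) : ℕ) : ℝ) = X := by push_cast; rfl
  set μ : ℝ := X ^ (θ - ε') with hμ
  have hμ0 : 0 < μ := by positivity
  set δ : ℝ := X ^ (-(k : ℝ)) with hδ
  have hδ0 : 0 < δ := by positivity
  have hδ1 : δ ≤ 1 := by
    rw [hδ]
    exact Real.rpow_le_one_of_one_le_of_nonpos hX1 (by simp)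
  have hδk : δ = 1 / (((2 ^ i : ℕ) : ℕ) : ℝ) ^ k := by
    rw [hNX, hδ, Real.rpow_neg hX0.le, Real.rpow_natCast, one_div]
  -- the maximal inequality and local constancy
  set F : Set ℝ := {t : ℝ | t ∈ Set.Icc ((j - 1 : ℤ) : ℝ) ((j + 2 : ℤ) : ℝ) ∧
    ∃ η : ℝ, μ ≤ ‖sw c k (2 ^ i) t η‖} with hF
  have key2 : ∀ t ∈ BB c k θ j i, ∀ t' : ℝ, |t' - t| ≤ δ → t' ∈ F := by
    rintro t ⟨ht1, M, hM1, hM2, ξ, hξ⟩ t' htt
    have htt' := abs_le.mp htt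
    refine ⟨⟨by push_cast; linarith [ht1.1, htt'.1], by push_cast; linarith [ht1.2, htt'.2]⟩, ?_⟩
    by_contra hcon
    push Not at hcon
    have h4 : ∀ m : ℕ, m ≤ 2 ^ i → ‖sw c k m t' ξ‖ ≤ (4 + 4 * Real.log X) * μ := by
      intro m hm
      have h5 := max_t c k (2 ^ i) m t' μ (Nat.one_le_two_pow) hm
        (fun η => (hcon η).le) ξ
      rw [hNX] at h5
      exact h5
    have hlog0 : 0 ≤ Real.log X := Real.log_nonneg hX1
    have h5 := shift_le c k (2 ^ i) M t t' ξ ((4 + 4 * Real.log X) * μ)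
      (Nat.one_le_two_pow) hM1 (by positivity) (by rw [abs_sub_comm, ← hδk]; exact htt) h4
    have h6 : (X / 2) ^ θ ≤ (M : ℝ) ^ θ := by
      apply Real.rpow_le_rpow (by positivity) _ hθ0.le
      have : ((2 ^ i : ℕ) : ℝ) ≤ ((2 * M : ℕ) : ℝ) := by exact_mod_cast hM2
      rw [hNX] at this
      push_cast at this
      linarith
    have h7 : (X / 2) ^ θ = X ^ θ / (2 : ℝ) ^ θ := Real.div_rpow hX0.le (by norm_num) θ
    have h8 : K0 * ((4 + 4 * Real.log X) * μ) ≤ X ^ θ / (2 : ℝ) ^ θ := by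
      rw [le_div_iff₀ (by positivity)]
      have h9 : X ^ θ = X ^ ε' * μ := by
        rw [hμ, ← Real.rpow_add hX0]
        congr 1
        ring
      rw [h9]
      calc K0 * ((4 + 4 * Real.log X) * μ) * (2 : ℝ) ^ θ =
          (K0 * (2 : ℝ) ^ θ * (4 + 4 * Real.log X)) * μ := by ring
        _ ≤ X ^ ε' * μ := mul_le_mul_of_nonneg_right g1 hμ0.le
    have h9 : (M : ℝ) ^ θ < (M : ℝ) ^ θ := by
      calc (M : ℝ) ^ θ < ‖sw c k M t ξ‖ := hξ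
        _ ≤ K0 * ((4 + 4 * Real.log X) * μ) := h5
        _ ≤ X ^ θ / (2 : ℝ) ^ θ := h8
        _ = (X / 2) ^ θ := h7.symm
        _ ≤ (M : ℝ) ^ θ := h6
    exact lt_irrefl _ h9
  -- the measure of F
  have h5 := meas_le c hc s k (2 ^ i) (j - 1) (j + 2) μ (by omega) hμ0
  rw [hNX] at h5
  have hJ := hC (2 ^ i) Nat.one_le_two_pow
  rw [hNX] at hJ
  set V : ℝ := ((s : ℝ) + 1) * (3 * C) * (X * X ^ (2 * (s : ℝ) - m + κ / 4) / μ ^ (2 * s)) with hV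
  have h6 : volume F ≤ ENNReal.ofReal V := by
    refine h5.trans (ENNReal.ofReal_le_ofReal ?_)
    rw [hV]
    have h7 : ((s : ℝ) * X + 1) * ((((j + 2 : ℤ) : ℝ) - ((j - 1 : ℤ) : ℝ)) * (J s k (2 ^ i) : ℝ)) ≤
        ((s : ℝ) + 1) * (3 * C) * (X * X ^ (2 * (s : ℝ) - m + κ / 4)) := by
      have a1 : (s : ℝ) * X + 1 ≤ ((s : ℝ) + 1) * X := by nlinarith
      have a2 : (((j + 2 : ℤ) : ℝ) - ((j - 1 : ℤ) : ℝ)) = 3 := by push_cast; ring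
      rw [a2]
      calc ((s : ℝ) * X + 1) * (3 * (J s k (2 ^ i) : ℝ)) ≤
          (((s : ℝ) + 1) * X) * (3 * (C * X ^ (2 * (s : ℝ) - m + κ / 4))) := by
            apply mul_le_mul a1 _ (by positivity) (by positivity)
            exact mul_le_mul_of_nonneg_left hJ (by norm_num)
        _ = _ := by ring
    calc _ ≤ ((s : ℝ) + 1) * (3 * C) * (X * X ^ (2 * (s : ℝ) - m + κ / 4)) / μ ^ (2 * s) :=
          div_le_div_of_nonneg_right h7 (by positivity)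
      _ = _ := by rw [mul_div_assoc]
  obtain ⟨S, hS1, hS2⟩ := Pool.Agent.TH181.MW.S_COV_t (BB c k θ j i) F δ V (j : ℝ) ((j : ℝ) + 1) hδ0
    (by positivity) (fun t ht => ht.1) key2 h6
  refine ⟨S, hS1.trans ?_, hS2⟩
  have h9 : μ ^ (2 * s) = X ^ (2 * s * (θ - ε')) := by
    rw [hμ, ← Real.rpow_natCast, ← Real.rpow_mul hX0.le]
    congr 1
    push_cast; ring
  have h10 : X * X ^ (2 * (s : ℝ) - m + κ / 4) = X ^ (1 + (2 * (s : ℝ) - m + κ / 4)) := by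
    rw [Real.rpow_add hX0 1 (2 * (s : ℝ) - m + κ / 4), Real.rpow_one]
  rw [hV, h9, h10, hδ, ← Real.rpow_sub hX0, mul_div_assoc, ← Real.rpow_sub hX0]
  calc ((s : ℝ) + 1) * (3 * C) *
        X ^ (1 + (2 * (s : ℝ) - m + κ / 4) - 2 * s * (θ - ε') - -(k : ℝ))
      ≤ X ^ (κ / 2) * X ^ (1 + (2 * (s : ℝ) - m + κ / 4) - 2 * s * (θ - ε') - -(k : ℝ)) :=
        mul_le_mul_of_nonneg_right g3 (by positivity)
    _ = X ^ (1 + 2 * (s : ℝ) - m - 2 * s * θ + k + κ) := by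
        rw [← Real.rpow_add hX0]
        congr 1
        rw [hε'd]
        field_simp
        ring

/-- the exceptional set -/
def Exc (c : ℕ → ℂ) (k : ℕ) (θ : ℝ) : Set ℝ :=
  {t : ℝ | ¬ ∃ C : ℝ, ∀ N : ℕ, 1 ≤ N → ∀ ξ : ℝ, ‖sw c k N t ξ‖ ≤ C * (N : ℝ) ^ θ}

theorem bad_sub (c : ℕ → ℂ) (hc : ∀ n, ‖c n‖ ≤ 1) (k : ℕ) (θ : ℝ) (hθ : 0 < θ) (t : ℝ)
    (ht : t ∈ Exc c k θ) :
    ∀ i1 : ℕ, ∃ i : ℕ, i1 ≤ i ∧ t ∈ BB c k θ ⌊t⌋ i := by
  intro i1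
  by_contra hcon
  push Not at hcon
  apply ht
  refine ⟨(2 : ℝ) ^ i1 + 1, ?_⟩
  intro N hN ξ
  have hN' : (1 : ℝ) ≤ (N : ℝ) := by exact_mod_cast hN
  have h2 : 1 ≤ (N : ℝ) ^ θ := Real.one_le_rpow hN' hθ.le
  have hp : (0 : ℝ) < (2 : ℝ) ^ i1 := by positivity
  rcases le_total N (2 ^ i1) with hN2 | hN2
  · have h4 : (N : ℝ) ≤ (2 : ℝ) ^ i1 := by exact_mod_cast hN2
    refine (sw_le c hc k N t ξ).trans ?_
    nlinarith
  · obtain ⟨i, hi1, hi2⟩ : ∃ i : ℕ, N ≤ 2 ^ i ∧ 2 ^ i ≤ 2 * N := by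
      refine ⟨Nat.log 2 N + 1, (Nat.lt_pow_succ_log_self (by norm_num) N).le, ?_⟩
      have := Nat.pow_log_le_self 2 (show N ≠ 0 by omega)
      rw [pow_succ]
      omega
    have hii : i1 ≤ i := by
      have : 2 ^ i1 ≤ 2 ^ i := hN2.trans hi1
      exact (Nat.pow_le_pow_iff_right (by norm_num)).mp this
    have h5 := hcon i hii
    have h6 : ‖sw c k N t ξ‖ ≤ (N : ℝ) ^ θ := by
      by_contra h7
      push Not at h7
      apply h5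
      exact ⟨⟨Int.floor_le t, (Int.lt_floor_add_one t).le⟩, N, hi1, hi2, ξ, h7⟩
    nlinarith

/-- the dimension bound from a bound for the number of solutions -/
theorem dim_gen (c : ℕ → ℂ) (hc : ∀ n, ‖c n‖ ≤ 1) (s m k : ℕ) (hs : 1 ≤ s) (hk : 1 ≤ k)
    (hB : BdJ s m k) (θ : ℝ) (hθ : 0 < θ) :
    dimH (Exc c k θ) ≤ ENNReal.ofReal (1 - ((m : ℝ) - 1 - 2 * s * (1 - θ)) / k) := by
  have hk0 : (0 : ℝ) < k := by exact_mod_cast hk
  have hsub : Exc c k θ ⊆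
      ⋃ j : ℤ, {t : ℝ | ∀ i1 : ℕ, ∃ i : ℕ, i1 ≤ i ∧ t ∈ BB c k θ j i} := by
    intro t ht
    rw [Set.mem_iUnion]
    exact ⟨⌊t⌋, bad_sub c hc k θ hθ t ht⟩
  refine (dimH_mono hsub).trans ?_
  rw [dimH_iUnion]
  apply iSup_le
  intro j
  set D0 : ℝ := 1 - ((m : ℝ) - 1 - 2 * s * (1 - θ)) / k with hD0
  apply ENNReal.le_of_forall_pos_le_add
  intro r hr _
  have hr0 : (0 : ℝ) < r := hr
  set D : ℝ := max D0 0 + r with hD
  have hDpos : 0 < D := by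
    have := le_max_right D0 0
    rw [hD]; linarith
  have hDD : D0 + r ≤ D := by
    have := le_max_left D0 0
    rw [hD]; linarith
  set κ : ℝ := k * r / 2 with hκ
  have hκ0 : 0 < κ := by positivity
  have h1 := Pool.Agent.TH181.MW.S_DIMG_t
    (1 + 2 * (s : ℝ) - m - 2 * s * θ + k + κ) k D (BB c k θ j) hk0 hDpos ?_
    (cover c hc s m k hs hB θ κ hθ hκ0 j)
  · refine h1.trans ?_
    rw [hD]
    refine (ENNReal.ofReal_add_le).trans ?_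
    apply add_le_add
    · rw [ENNReal.ofReal_max, ENNReal.ofReal_zero]
      simp
    · rw [ENNReal.ofReal_coe_nnreal]
  · have h2 : (k : ℝ) * (D0 + r) ≤ k * D := mul_le_mul_of_nonneg_left hDD hk0.le
    have h3 : (k : ℝ) * D0 = k - ((m : ℝ) - 1 - 2 * s * (1 - θ)) := by
      rw [hD0]
      field_simp
    have h4 : (1 + 2 * (s : ℝ) - m - 2 * s * θ + k + κ) = k * D0 + κ := by
      rw [h3]; ring
    rw [h4]
    have h5 : κ < k * r := by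
      rw [hκ]
      have : 0 < k * (r : ℝ) := by positivity
      linarith
    nlinarith

/-- the dimension bound by Hua's recursion, starting from three variables -/
theorem dim_hua (c : ℕ → ℂ) (hc : ∀ n, ‖c n‖ ≤ 1) (k i : ℕ) (hk : 3 ≤ k) (hi : 1 ≤ i)
    (hik : i < k) (θ : ℝ) (hθ : 0 < θ) :
    dimH (Exc c k θ) ≤
      ENNReal.ofReal (1 - ((i : ℝ) + 1 - (2 ^ (i + 1) + 2) * (1 - θ)) / k) := by
  have h := dim_gen c hc (1 + 2 ^ i) (i + 2) k (Nat.le_add_right 1 _) (by omega)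
    (hua k hk i hi hik) θ hθ
  refine h.trans (le_of_eq ?_)
  congr 3
  push_cast
  ring

/-- one exponent: null -/
theorem null_exc (c : ℕ → ℂ) (hc : ∀ n, ‖c n‖ ≤ 1) (k : ℕ) (hk : 3 ≤ k) (θ : ℝ)
    (hθ : 2 / 3 < θ) : volume (Exc c k θ) = 0 := by
  have hk0 : (0 : ℝ) < k := by
    have : 0 < k := by omega
    exact_mod_cast this
  have h := dim_hua c hc k 1 hk le_rfl (by omega) θ (by linarith)
  have hD : 1 - (((1 : ℕ) : ℝ) + 1 - (2 ^ (1 + 1) + 2) * (1 - θ)) / k < 1 := by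
    have h7 : 0 < (((1 : ℕ) : ℝ) + 1 - (2 ^ (1 + 1) + 2) * (1 - θ)) / k := by
      apply div_pos _ hk0
      push_cast
      linarith
    linarith
  have h1 : dimH (Exc c k θ) < ((1 : NNReal) : ENNReal) := by
    refine h.trans_lt ?_
    rw [ENNReal.coe_one, ← ENNReal.ofReal_one]
    exact (ENNReal.ofReal_lt_ofReal_iff (by norm_num)).2 hD
  refine measure_zero_of_dimH_lt ?_ h1
  rw [NNReal.coe_one, MeasureTheory.hausdorffMeasure_real]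

/-- almost all leading coefficients -/
theorem ae_all (c : ℕ → ℂ) (hc : ∀ n, ‖c n‖ ≤ 1) (k : ℕ) (hk : 3 ≤ k) :
    ∀ᵐ t : ℝ, ∀ θ : ℝ, 2 / 3 < θ → ∃ C : ℝ, ∀ N : ℕ, 1 ≤ N → ∀ ξ : ℝ,
      ‖sw c k N t ξ‖ ≤ C * (N : ℝ) ^ θ := by
  rw [ae_iff]
  have hsub : {t : ℝ | ¬ ∀ θ : ℝ, 2 / 3 < θ → ∃ C : ℝ, ∀ N : ℕ, 1 ≤ N → ∀ ξ : ℝ,
      ‖sw c k N t ξ‖ ≤ C * (N : ℝ) ^ θ} ⊆ ⋃ n : ℕ, Exc c k (2 / 3 + 1 / ((n : ℝ) + 1)) := by
    intro t ht
    simp only [Set.mem_ofPred_eq, not_forall] at ht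
    obtain ⟨θ, hθ, h⟩ := ht
    obtain ⟨n, hn⟩ := exists_nat_one_div_lt (show (0 : ℝ) < θ - 2 / 3 by linarith)
    rw [Set.mem_iUnion]
    refine ⟨n, fun hC => h ?_⟩
    obtain ⟨C, hC⟩ := hC
    refine ⟨|C|, fun N hN ξ => (hC N hN ξ).trans ?_⟩
    have hN' : (1 : ℝ) ≤ (N : ℝ) := by exact_mod_cast hN
    calc C * (N : ℝ) ^ (2 / 3 + 1 / ((n : ℝ) + 1)) ≤ |C| * (N : ℝ) ^ (2 / 3 + 1 / ((n : ℝ) + 1)) :=
          mul_le_mul_of_nonneg_right (le_abs_self C) (by positivity)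
      _ ≤ |C| * (N : ℝ) ^ θ := by
          apply mul_le_mul_of_nonneg_left _ (abs_nonneg C)
          exact Real.rpow_le_rpow_of_exponent_le hN' (by linarith)
  refine measure_mono_null hsub ?_
  rw [measure_iUnion_null_iff]
  intro n
  have hn : (0 : ℝ) < 1 / ((n : ℝ) + 1) := by positivity
  exact null_exc c hc k hk _ (by linarith)

/-- the factor of `H_k(η)` -/
theorem fac_ge (k N q : ℕ) (η ε : ℝ) (hη : 0 ≤ η) (hN : 1 ≤ N) :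
    (N : ℝ) ^ (1 - η + ε) ≤ (N : ℝ) ^ (1 + ε) *
      (1 / (q : ℝ) + 1 / (N : ℝ) + (q : ℝ) / (N : ℝ) ^ k) ^ η :=
  Pool.Agent.N102.MW.main_ge k N q η ε hη hN

end Pool.Agent.N755.WS
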