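import Pool.Agent.N755.WS.Quad
import Pool.Agent.TH181.MW.Cov

/-! # Moments of weighted sums (helper755, after helpers 181 and 928) -/

set_option autoImplicit false

open Finset MeasureTheory

namespace Pool.Agent.N755.WS

open Pool.Agent.W928.MW (e e_add e_norm e_cont)
open Pool.Agent.TH181.MW (tup prs J e_sum tup_sum_le int_cos)

/-- the weighted Weyl sum -/
noncomputable def sw (c : ℕ → ℂ) (k N : ℕ) (t ξ : ℝ) : ℂ :=
  ∑ n ∈ Icc 1 N, c n * e (t * (n : ℝ) ^ k + ξ * (n : ℝ))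

noncomputable def pc (c : ℕ → ℂ) (s k N m : ℕ) (t : ℝ) : ℂ :=
  ∑ z ∈ prs s N m, (∏ i, c (z i)) * e (t * ((∑ i, z i ^ k : ℕ) : ℝ))

noncomputable def Qc (c : ℕ → ℂ) (s k N : ℕ) (t : ℝ) : ℝ :=
  ∑ m ∈ range (s * N + 1), ‖pc c s k N m t‖ ^ 2

theorem sw_le (c : ℕ → ℂ) (hc : ∀ n, ‖c n‖ ≤ 1) (k N : ℕ) (t ξ : ℝ) : ‖sw c k N t ξ‖ ≤ N := by
  unfold sw
  refine (norm_sum_le _ _).trans ?_
  calc ∑ n ∈ Icc 1 N, ‖c n * e (t * (n : ℝ) ^ k + ξ * (n : ℝ))‖ ≤ ∑ _n ∈ Icc 1 N, (1 : ℝ) := by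
        refine Finset.sum_le_sum fun n _ => ?_
        rw [norm_mul, e_norm, mul_one]
        exact hc n
    _ = N := by rw [Finset.sum_const, Nat.card_Icc, Nat.add_sub_cancel, nsmul_eq_mul, mul_one]

theorem sw_pow (c : ℕ → ℂ) (s k N : ℕ) (t ξ : ℝ) :
    sw c k N t ξ ^ s = ∑ m ∈ range (s * N + 1), e (ξ * m) * pc c s k N m t := by
  have h1 : sw c k N t ξ ^ s = ∑ z ∈ tup s N, e (ξ * ((∑ i, z i : ℕ) : ℝ)) *
      ((∏ i, c (z i)) * e (t * ((∑ i, z i ^ k : ℕ) : ℝ))) := by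
    unfold sw tup
    rw [Finset.sum_pow']
    apply Finset.sum_congr rfl
    intro z _
    rw [Finset.prod_mul_distrib, ← e_sum, mul_left_comm, ← e_add]
    congr 2
    push_cast
    rw [Finset.mul_sum, Finset.mul_sum, ← Finset.sum_add_distrib]
    apply Finset.sum_congr rfl
    intro i _
    ring
  rw [h1, ← Finset.sum_fiberwise_of_maps_to (s := tup s N) (t := range (s * N + 1))
    (g := fun z : Fin s → ℕ => ∑ i, z i)]
  · apply Finset.sum_congr rfl
    intro m _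
    unfold pc prs
    rw [Finset.mul_sum]
    apply Finset.sum_congr rfl
    intro z hz
    rw [Finset.mem_filter] at hz
    rw [hz.2]
  · intro z hz
    rw [Finset.mem_range]
    have := tup_sum_le s N z hz
    omega

theorem sup (c : ℕ → ℂ) (s k N : ℕ) (t ξ : ℝ) :
    ‖sw c k N t ξ‖ ^ (2 * s) ≤ ((s : ℝ) * (N : ℝ) + 1) * Qc c s k N t := by
  have h1 : ‖sw c k N t ξ‖ ^ (2 * s) = ‖sw c k N t ξ ^ s‖ ^ 2 := by
    rw [norm_pow, ← pow_mul, mul_comm]
  rw [h1, sw_pow]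
  have h2 : ‖∑ m ∈ range (s * N + 1), e (ξ * m) * pc c s k N m t‖ ≤
      ∑ m ∈ range (s * N + 1), ‖pc c s k N m t‖ := by
    refine (norm_sum_le _ _).trans (le_of_eq ?_)
    apply Finset.sum_congr rfl
    intro m _
    rw [norm_mul, e_norm, one_mul]
  have h3 := sq_sum_le_card_mul_sum_sq (s := range (s * N + 1)) (f := fun m => ‖pc c s k N m t‖)
  rw [Finset.card_range] at h3
  have h4 : (((s * N + 1 : ℕ) : ℝ)) = (s : ℝ) * (N : ℝ) + 1 := by push_cast; ring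
  rw [h4] at h3
  refine le_trans ?_ h3
  exact pow_le_pow_left₀ (norm_nonneg _) h2 2

theorem mul_e_re (B : ℂ) (x : ℝ) :
    (B * e x).re = B.re * Real.cos (2 * Real.pi * x) - B.im * Real.sin (2 * Real.pi * x) := by
  have h1 : e x = Complex.exp (((2 * Real.pi * x : ℝ) : ℂ) * Complex.I) := by
    unfold Pool.Agent.W928.MW.e
    congr 1
    push_cast
    ring
  rw [h1, Complex.mul_re, Complex.exp_ofReal_mul_I_re, Complex.exp_ofReal_mul_I_im]

theorem e_mul_conj (x y : ℝ) : e x * (starRingEnd ℂ) (e y) = e (x - y) := by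
  unfold Pool.Agent.W928.MW.e
  rw [← Complex.exp_conj, ← Complex.exp_add]
  congr 1
  simp only [map_mul, Complex.conj_ofReal, Complex.conj_I, Complex.conj_ofNat]
  push_cast
  ring

theorem pc_sq (c : ℕ → ℂ) (s k N m : ℕ) (t : ℝ) : ‖pc c s k N m t‖ ^ 2 =
    ∑ z ∈ prs s N m, ∑ w ∈ prs s N m, (((∏ i, c (z i)) * (starRingEnd ℂ) (∏ i, c (w i))) *
      e (t * (((∑ i, z i ^ k : ℕ) : ℝ) - ((∑ i, w i ^ k : ℕ) : ℝ)))).re := by
  have h1 : ((‖pc c s k N m t‖ ^ 2 : ℝ) : ℂ) = pc c s k N m t * (starRingEnd ℂ) (pc c s k N m t) := by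
    rw [Complex.mul_conj, Complex.normSq_eq_norm_sq]
  have h2 : ‖pc c s k N m t‖ ^ 2 = (pc c s k N m t * (starRingEnd ℂ) (pc c s k N m t)).re := by
    rw [← h1, Complex.ofReal_re]
  rw [h2]
  unfold pc
  rw [map_sum, Finset.sum_mul_sum, Complex.re_sum]
  apply Finset.sum_congr rfl
  intro z _
  rw [Complex.re_sum]
  apply Finset.sum_congr rfl
  intro w _
  congr 1
  rw [mul_sub, ← e_mul_conj, map_mul]
  ring

theorem pc_cont (c : ℕ → ℂ) (s k N m : ℕ) : Continuous (pc c s k N m) := by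
  unfold pc
  refine continuous_finsetSum _ (fun z _ => ?_)
  exact continuous_const.mul (e_cont.comp (by fun_prop))

theorem Qc_cont (c : ℕ → ℂ) (s k N : ℕ) : Continuous (Qc c s k N) := by
  unfold Qc
  refine continuous_finsetSum _ (fun m _ => ?_)
  exact ((pc_cont c s k N m).norm).pow 2

theorem Qc_nonneg (c : ℕ → ℂ) (s k N : ℕ) (t : ℝ) : 0 ≤ Qc c s k N t := by
  unfold Qc
  positivity

theorem int_sin (u v : ℤ) (n : ℤ) :
    ∫ t in (u : ℝ)..(v : ℝ), Real.sin (2 * Real.pi * (t * (n : ℝ))) = 0 := by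
  by_cases h : n = 0
  · subst h; simp
  · have hn : (n : ℝ) ≠ 0 := by exact_mod_cast h
    have hc : 2 * Real.pi * (n : ℝ) ≠ 0 := by positivity
    have h1 : ∀ t : ℝ, Real.sin (2 * Real.pi * (t * (n : ℝ))) = Real.sin ((2 * Real.pi * (n : ℝ)) * t) := by
      intro t; congr 1; ring
    simp_rw [h1]
    rw [intervalIntegral.integral_comp_mul_left (fun x => Real.sin x) hc, integral_sin]
    have h2 : ∀ w : ℤ, Real.cos (2 * Real.pi * (n : ℝ) * (w : ℝ)) = 1 := by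
      intro w
      have : 2 * Real.pi * (n : ℝ) * (w : ℝ) = ((n * w : ℤ) : ℝ) * (2 * Real.pi) := by push_cast; ring
      rw [this]
      exact Real.cos_int_mul_two_pi _
    rw [h2, h2]
    simp

theorem int_re (B : ℂ) (u v : ℤ) (n : ℤ) :
    ∫ t in (u : ℝ)..(v : ℝ), (B * e (t * (n : ℝ))).re = if n = 0 then ((v : ℝ) - u) * B.re else 0 := by
  simp_rw [mul_e_re]
  rw [intervalIntegral.integral_sub, intervalIntegral.integral_const_mul,
    intervalIntegral.integral_const_mul, int_cos, int_sin, mul_zero, sub_zero]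
  · split_ifs
    · ring
    · ring
  · apply Continuous.intervalIntegrable
    fun_prop
  · apply Continuous.intervalIntegrable
    fun_prop

theorem int_Qc (c : ℕ → ℂ) (hc : ∀ n, ‖c n‖ ≤ 1) (s k N : ℕ) (u v : ℤ) (huv : u ≤ v) :
    ∫ t in (u : ℝ)..(v : ℝ), Qc c s k N t ≤ ((v : ℝ) - u) * (J s k N : ℝ) := by
  have huv' : (0 : ℝ) ≤ (v : ℝ) - u := by
    have : (u : ℝ) ≤ v := by exact_mod_cast huv
    linarith
  unfold Qc
  rw [intervalIntegral.integral_finsetSum]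
  · have h1 : ∀ m ∈ range (s * N + 1), ∫ t in (u : ℝ)..(v : ℝ), ‖pc c s k N m t‖ ^ 2 ≤
        ((v : ℝ) - u) * ((((prs s N m) ×ˢ (prs s N m)).filter (fun z => ∑ i, z.1 i ^ k = ∑ i, z.2 i ^ k)).card : ℝ) := by
      intro m _
      have h2 : ∀ t : ℝ, ‖pc c s k N m t‖ ^ 2 = ∑ z ∈ (prs s N m) ×ˢ (prs s N m),
          (((∏ i, c (z.1 i)) * (starRingEnd ℂ) (∏ i, c (z.2 i))) *
          e (t * ((((∑ i, z.1 i ^ k : ℕ) : ℤ) - ((∑ i, z.2 i ^ k : ℕ) : ℤ) : ℤ) : ℝ))).re := by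
        intro t
        rw [pc_sq, ← Finset.sum_product']
        apply Finset.sum_congr rfl
        intro z _
        congr 4
        push_cast
        ring
      simp_rw [h2]
      rw [intervalIntegral.integral_finsetSum]
      · simp_rw [int_re]
        rw [Finset.sum_ite, Finset.sum_const_zero, add_zero]
        have h3 : ∀ z : (Fin s → ℕ) × (Fin s → ℕ),
            ((∏ i, c (z.1 i)) * (starRingEnd ℂ) (∏ i, c (z.2 i))).re ≤ 1 := by
          intro z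
          refine (Complex.re_le_norm _).trans ?_
          rw [norm_mul, RCLike.norm_conj]
          have h4 : ∀ y : Fin s → ℕ, ‖∏ i, c (y i)‖ ≤ 1 := by
            intro y
            rw [norm_prod]
            exact Finset.prod_le_one (fun i _ => norm_nonneg _) (fun i _ => hc _)
          calc ‖∏ i, c (z.1 i)‖ * ‖∏ i, c (z.2 i)‖ ≤ 1 * 1 :=
                mul_le_mul (h4 _) (h4 _) (norm_nonneg _) zero_le_one
            _ = 1 := one_mul 1
        refine (Finset.sum_le_sum fun z _ => mul_le_mul_of_nonneg_left (h3 z) huv').trans ?_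
        rw [Finset.sum_const, nsmul_eq_mul, mul_one, mul_comm]
        apply mul_le_mul_of_nonneg_left _ huv'
        have h5 : (((prs s N m) ×ˢ (prs s N m)).filter
            (fun z => (((∑ i, z.1 i ^ k : ℕ) : ℤ) - ((∑ i, z.2 i ^ k : ℕ) : ℤ) : ℤ) = 0)) =
            (((prs s N m) ×ˢ (prs s N m)).filter (fun z => ∑ i, z.1 i ^ k = ∑ i, z.2 i ^ k)) := by
          apply Finset.filter_congr
          intro z _
          constructor
          · intro h; have := sub_eq_zero.mp h; exact_mod_cast this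
          · intro h; rw [h]; simp
        rw [h5]
      · intro z _
        apply Continuous.intervalIntegrable
        exact Complex.continuous_re.comp (continuous_const.mul (e_cont.comp (by fun_prop)))
    refine (Finset.sum_le_sum h1).trans (le_of_eq ?_)
    rw [← Finset.mul_sum]
    congr 1
    unfold Pool.Agent.TH181.MW.J
    rw [Finset.card_eq_sum_card_fiberwise (f := fun z : (Fin s → ℕ) × (Fin s → ℕ) => ∑ i, z.1 i)
      (t := range (s * N + 1))]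
    · push_cast
      apply Finset.sum_congr rfl
      intro m _
      congr 2
      ext z
      simp only [Finset.mem_filter, Finset.mem_product, prs]
      constructor
      · rintro ⟨⟨⟨a1, a2⟩, b1, b2⟩, c⟩
        exact ⟨⟨⟨a1, b1⟩, a2.trans b2.symm, c⟩, a2⟩
      · rintro ⟨⟨⟨a1, b1⟩, d, c⟩, a2⟩
        exact ⟨⟨⟨a1, a2⟩, b1, d.symm.trans a2⟩, c⟩
    · intro z hz
      have hz' := (Finset.mem_filter.mp hz).1
      rw [Finset.mem_product] at hz'
      have := tup_sum_le s N z.1 hz'.1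
      simp only [Finset.coe_range, Set.mem_Iio]
      omega
  · intro m _
    exact (((pc_cont c s k N m).norm).pow 2).intervalIntegrable _ _

theorem meas_le (c : ℕ → ℂ) (hc : ∀ n, ‖c n‖ ≤ 1) (s k N : ℕ) (u v : ℤ) (lam : ℝ) (huv : u ≤ v)
    (hl : 0 < lam) :
    volume {t : ℝ | t ∈ Set.Icc (u : ℝ) (v : ℝ) ∧ ∃ ξ : ℝ, lam ≤ ‖sw c k N t ξ‖} ≤
      ENNReal.ofReal (((s : ℝ) * (N : ℝ) + 1) * (((v : ℝ) - u) * (J s k N : ℝ)) / lam ^ (2 * s)) := by
  set ρ : ℝ := lam ^ (2 * s) / ((s : ℝ) * (N : ℝ) + 1) with hρ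
  have huv' : (u : ℝ) ≤ (v : ℝ) := by exact_mod_cast huv
  have hN0 : (0 : ℝ) < (s : ℝ) * (N : ℝ) + 1 := by positivity
  have hρ0 : 0 < ρ := by positivity
  have hsub : {t : ℝ | t ∈ Set.Icc (u : ℝ) (v : ℝ) ∧ ∃ ξ : ℝ, lam ≤ ‖sw c k N t ξ‖} ⊆
      {t : ℝ | ρ ≤ Qc c s k N t} ∩ Set.Icc (u : ℝ) (v : ℝ) := by
    rintro t ⟨ht, ξ, hξ⟩
    refine ⟨?_, ht⟩
    have h1 := sup c s k N t ξ
    have h2 : lam ^ (2 * s) ≤ ‖sw c k N t ξ‖ ^ (2 * s) := pow_le_pow_left₀ hl.le hξ (2 * s)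
    change ρ ≤ Qc c s k N t
    rw [hρ, div_le_iff₀ hN0]
    linarith
  have hmeas : MeasurableSet {t : ℝ | ρ ≤ Qc c s k N t} :=
    (isClosed_le continuous_const (Qc_cont c s k N)).measurableSet
  have hint : Integrable (Qc c s k N) (volume.restrict (Set.Icc (u : ℝ) (v : ℝ))) :=
    ((Qc_cont c s k N).continuousOn).integrableOn_Icc
  have h3 := mul_meas_ge_le_integral_of_nonneg (μ := volume.restrict (Set.Icc (u : ℝ) (v : ℝ)))
    (f := Qc c s k N) (Filter.Eventually.of_forall (Qc_nonneg c s k N)) hint ρ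
  have h4 : ∫ x, Qc c s k N x ∂(volume.restrict (Set.Icc (u : ℝ) (v : ℝ))) =
      ∫ t in (u : ℝ)..(v : ℝ), Qc c s k N t := by
    rw [intervalIntegral.integral_of_le huv', integral_Icc_eq_integral_Ioc]
  rw [h4] at h3
  have h3' := h3.trans (int_Qc c hc s k N u v huv)
  have h5 : (volume.restrict (Set.Icc (u : ℝ) (v : ℝ))).real {t : ℝ | ρ ≤ Qc c s k N t} =
      (volume ({t : ℝ | ρ ≤ Qc c s k N t} ∩ Set.Icc (u : ℝ) (v : ℝ))).toReal := by
    unfold Measure.real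
    rw [Measure.restrict_apply hmeas]
  rw [h5] at h3'
  have hfin : volume ({t : ℝ | ρ ≤ Qc c s k N t} ∩ Set.Icc (u : ℝ) (v : ℝ)) ≠ ⊤ := by
    refine ne_top_of_le_ne_top ?_ (measure_mono Set.inter_subset_right)
    rw [Real.volume_Icc]
    exact ENNReal.ofReal_ne_top
  refine (measure_mono hsub).trans ?_
  rw [← ENNReal.ofReal_toReal hfin]
  apply ENNReal.ofReal_le_ofReal
  have h6 : (volume ({t : ℝ | ρ ≤ Qc c s k N t} ∩ Set.Icc (u : ℝ) (v : ℝ))).toReal ≤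
      (((v : ℝ) - u) * (J s k N : ℝ)) / ρ := by
    rw [le_div_iff₀ hρ0]
    linarith [h3', mul_comm ρ (volume ({t : ℝ | ρ ≤ Qc c s k N t} ∩ Set.Icc (u : ℝ) (v : ℝ))).toReal]
  refine h6.trans (le_of_eq ?_)
  rw [hρ]
  field_simp

/-! ### Incomplete sums and local constancy -/

theorem sw_form (c : ℕ → ℂ) (k N : ℕ) (t ξ : ℝ) :
    sw c k N t ξ = ∑ n ∈ Icc 1 N, (c n * e (t * (n : ℝ) ^ k)) * e (ξ * n) := by
  unfold sw
  refine Finset.sum_congr rfl (fun n _ => ?_)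
  rw [e_add, mul_assoc]

theorem max_t (c : ℕ → ℂ) (k N M : ℕ) (t K : ℝ) (hN : 1 ≤ N) (hM : M ≤ N)
    (h : ∀ η : ℝ, ‖sw c k N t η‖ ≤ K) (ξ : ℝ) : ‖sw c k M t ξ‖ ≤ (4 + 4 * Real.log N) * K := by
  have hN' : (1 : ℝ) ≤ N := by exact_mod_cast hN
  have hK0 : 0 ≤ K := (norm_nonneg _).trans (h 0)
  have h1 := Pool.Agent.TH181.MW.max_le N M hN hM (fun n => c n * e (t * (n : ℝ) ^ k)) K (fun η => by
    have := h η
    rwa [sw_form] at this) ξ
  rw [← sw_form] at h1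
  refine h1.trans ?_
  apply mul_le_mul_of_nonneg_right _ hK0
  have := Real.log_nonneg hN'
  linarith

theorem shift_le (c : ℕ → ℂ) (k N M : ℕ) (t t' ξ B : ℝ) (hN : 1 ≤ N) (hM : M ≤ N) (hB : 0 ≤ B)
    (htt : |t - t'| ≤ 1 / (N : ℝ) ^ k)
    (h : ∀ m : ℕ, m ≤ N → ‖sw c k m t' ξ‖ ≤ B) :
    ‖sw c k M t ξ‖ ≤ (1 + 2 * Real.pi * 2 ^ k) * B := by
  have hN' : (1 : ℝ) ≤ N := by exact_mod_cast hN
  have hN0 : (0 : ℝ) < N := by linarith
  have h1 : sw c k M t ξ = ∑ x ∈ range M, e ((t - t') * ((x + 1 : ℕ) : ℝ) ^ k) *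
      (c (x + 1) * e (t' * ((x + 1 : ℕ) : ℝ) ^ k + ξ * ((x + 1 : ℕ) : ℝ))) := by
    unfold sw
    rw [Pool.Agent.TH181.MW.sum_Icc_range]
    apply Finset.sum_congr rfl
    intro x _
    rw [mul_left_comm, ← e_add]
    congr 2
    ring
  have h2 := Pool.Agent.H520R3.abel_bound (fun x : ℕ => e ((t - t') * ((x + 1 : ℕ) : ℝ) ^ k))
    (fun x : ℕ => c (x + 1) * e (t' * ((x + 1 : ℕ) : ℝ) ^ k + ξ * ((x + 1 : ℕ) : ℝ))) B
    (2 * Real.pi * 2 ^ k) hB M
    (by
      intro X hX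
      have h3 := h X (hX.trans hM)
      unfold sw at h3
      rwa [Pool.Agent.TH181.MW.sum_Icc_range] at h3)
    (fun x => (e_norm _).le)
    (by
      have h4 : ∀ x ∈ range M, ‖e ((t - t') * ((x + 1 + 1 : ℕ) : ℝ) ^ k) - e ((t - t') * ((x + 1 : ℕ) : ℝ) ^ k)‖ ≤
          2 * Real.pi * |t - t'| * (((x + 1 + 1 : ℕ) : ℝ) ^ k - ((x + 1 : ℕ) : ℝ) ^ k) := by
        intro x _
        refine (Pool.Agent.W928.MW.e_lip _ _).trans (le_of_eq ?_)
        rw [← mul_sub, abs_mul, abs_of_nonneg (a := ((x + 1 + 1 : ℕ) : ℝ) ^ k - ((x + 1 : ℕ) : ℝ) ^ k)]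
        · ring
        · have : ((x + 1 : ℕ) : ℝ) ^ k ≤ ((x + 1 + 1 : ℕ) : ℝ) ^ k :=
            pow_le_pow_left₀ (by positivity) (by push_cast; linarith) k
          linarith
      refine (Finset.sum_le_sum h4).trans ?_
      rw [← Finset.mul_sum, Finset.sum_range_sub (fun x : ℕ => ((x + 1 : ℕ) : ℝ) ^ k)]
      have h5 : ((M + 1 : ℕ) : ℝ) ^ k - ((0 + 1 : ℕ) : ℝ) ^ k ≤ (2 * (N : ℝ)) ^ k := by
        have h6 : ((M + 1 : ℕ) : ℝ) ^ k ≤ (2 * (N : ℝ)) ^ k := by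
          apply pow_le_pow_left₀ (by positivity)
          have : (M : ℝ) ≤ N := by exact_mod_cast hM
          push_cast
          linarith
        have h7 : (0 : ℝ) ≤ ((0 + 1 : ℕ) : ℝ) ^ k := by positivity
        linarith
      calc 2 * Real.pi * |t - t'| * (((M + 1 : ℕ) : ℝ) ^ k - ((0 + 1 : ℕ) : ℝ) ^ k)
          ≤ 2 * Real.pi * |t - t'| * (2 * (N : ℝ)) ^ k :=
            mul_le_mul_of_nonneg_left h5 (by positivity)
        _ ≤ 2 * Real.pi * (1 / (N : ℝ) ^ k) * (2 * (N : ℝ)) ^ k := by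
            apply mul_le_mul_of_nonneg_right _ (by positivity)
            exact mul_le_mul_of_nonneg_left htt (by positivity)
        _ = 2 * Real.pi * 2 ^ k := by
            rw [mul_pow]
            field_simp)
  rw [h1]
  refine h2.trans (le_of_eq ?_)
  ring

end Pool.Agent.N755.WS
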