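import Pool.Agent.N102.MW.Bd

/-! # The system of degrees `1, k` in six variables (helper755, after helper102) -/

set_option autoImplicit false

open Finset

namespace Pool.Agent.N755.WS

open Pool.Agent.TH181.MW (tup J)
open Pool.Agent.N102.MW (BdJ step tup_card)

theorem dvd1 (k : ℕ) (a b y c : ℤ) (h : a + b = y + c) : (a - y) ∣ a ^ k + b ^ k - y ^ k - c ^ k := by
  have h1 := sub_dvd_pow_sub_pow a y k
  have h2 := sub_dvd_pow_sub_pow b c k
  have h3 : b - c = -(a - y) := by linarith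
  rw [h3, neg_dvd] at h2
  have h4 : a ^ k + b ^ k - y ^ k - c ^ k = (a ^ k - y ^ k) + (b ^ k - c ^ k) := by ring
  rw [h4]
  exact dvd_add h1 h2

/-- two natural numbers against a natural number and an integer -/
theorem pair_eq (k p q r : ℕ) (c : ℤ) (hk : 2 ≤ k) (hp : 1 ≤ p) (hq : 1 ≤ q)
    (h1 : (p : ℤ) + q = r + c) (h2 : (p : ℤ) ^ k + (q : ℤ) ^ k = (r : ℤ) ^ k + c ^ k) :
    r = p ∨ r = q := by
  rcases lt_or_ge c 0 with hc | hc
  · exfalso
    obtain ⟨m, hm⟩ : ∃ m : ℕ, c = -(m : ℤ) := ⟨c.natAbs, by omega⟩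
    have hm1 : 1 ≤ m := by omega
    have hr : r = p + q + m := by omega
    have h3 : (p + q) ^ k + m ^ k ≤ (p + q + m) ^ k := by
      have := pow_add_pow_le (x := (p + q : ℕ)) (y := m) (Nat.zero_le _) (Nat.zero_le _)
        (n := k) (by omega)
      exact this
    have h4 : p ^ k + q ^ k < (p + q) ^ k := by
      obtain ⟨l, rfl⟩ : ∃ l, k = l + 2 := ⟨k - 2, by omega⟩
      have e1 : p ^ (l + 1) ≤ (p + q) ^ (l + 1) := Nat.pow_le_pow_left (by omega) _
      have e2 : q ^ (l + 1) < (p + q) ^ (l + 1) := Nat.pow_lt_pow_left (by omega) (by omega)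
      calc p ^ (l + 2) + q ^ (l + 2) = p * p ^ (l + 1) + q * q ^ (l + 1) := by ring
        _ < p * (p + q) ^ (l + 1) + q * (p + q) ^ (l + 1) := by
            have a1 := Nat.mul_le_mul_left p e1
            have a2 := Nat.mul_lt_mul_of_pos_left e2 (show 0 < q by omega)
            omega
        _ = (p + q) ^ (l + 2) := by ring
    have h5 : -(m : ℤ) ^ k ≤ c ^ k := by
      rw [hm]
      rcases Nat.even_or_odd k with he | ho
      · rw [he.neg_pow]
        have : (0 : ℤ) ≤ (m : ℤ) ^ k := by positivity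
        linarith
      · rw [ho.neg_pow]
    have h3' : ((p : ℤ) + q) ^ k + (m : ℤ) ^ k ≤ (r : ℤ) ^ k := by
      rw [hr]
      exact_mod_cast h3
    have h4' : (p : ℤ) ^ k + (q : ℤ) ^ k < ((p : ℤ) + q) ^ k := by exact_mod_cast h4
    linarith
  · obtain ⟨m, rfl⟩ : ∃ m : ℕ, c = (m : ℤ) := ⟨c.toNat, by omega⟩
    have e1 : r + m = p + q := by
      have : (r : ℤ) + m = p + q := h1.symm
      exact_mod_cast this
    have h3 := Pool.Agent.W225.MWD.t k r m p q hk e1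
    have e3 : (r : ℝ) ^ k + (m : ℝ) ^ k - (p : ℝ) ^ k - (q : ℝ) ^ k = 0 := by
      have : (p : ℝ) ^ k + (q : ℝ) ^ k = (r : ℝ) ^ k + (m : ℝ) ^ k := by exact_mod_cast h2
      linarith
    rw [e3, abs_zero] at h3
    have h4 : (0 : ℝ) < (max (max (r : ℝ) (m : ℝ)) (max (p : ℝ) (q : ℝ))) ^ (k - 2) := by
      have : (0 : ℝ) < max (max (r : ℝ) (m : ℝ)) (max (p : ℝ) (q : ℝ)) := by
        apply lt_max_of_lt_right
        apply lt_max_of_lt_left
        exact_mod_cast hp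
      positivity
    have h5 : |(r : ℝ) - p| * |(r : ℝ) - q| = 0 := by
      apply le_antisymm _ (by positivity)
      by_contra hcon
      rw [not_le] at hcon
      have := mul_pos hcon h4
      linarith
    rcases mul_eq_zero.1 h5 with h6 | h6
    · left
      have h7 : (r : ℝ) = p := sub_eq_zero.1 (abs_eq_zero.1 h6)
      exact_mod_cast h7
    · right
      have h7 : (r : ℝ) = q := sub_eq_zero.1 (abs_eq_zero.1 h6)
      exact_mod_cast h7

/-- the number which is divided -/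
def EE (k : ℕ) (u : ℕ × ℕ × ℕ) : ℤ :=
  (u.2.1 : ℤ) ^ k + (u.2.2 : ℤ) ^ k - (u.1 : ℤ) ^ k - ((u.2.1 : ℤ) + u.2.2 - u.1) ^ k

/-- the divisors of an integer, of both signs -/
def DI (E : ℤ) : Finset ℤ :=
  E.natAbs.divisors.image (fun n : ℕ => (n : ℤ)) ∪ E.natAbs.divisors.image (fun n : ℕ => -(n : ℤ))

theorem mem_DI {E a : ℤ} (hE : E ≠ 0) (h : a ∣ E) : a ∈ DI E := by
  have h1 : a.natAbs ∈ E.natAbs.divisors :=
    Nat.mem_divisors.2 ⟨Int.natAbs_dvd_natAbs.2 h, Int.natAbs_ne_zero.2 hE⟩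
  unfold DI
  rw [mem_union, mem_image, mem_image]
  rcases Int.natAbs_eq a with h2 | h2
  · exact Or.inl ⟨_, h1, h2.symm⟩
  · exact Or.inr ⟨_, h1, h2.symm⟩

theorem card_DI (E : ℤ) : (DI E).card ≤ 2 * E.natAbs.divisors.card := by
  unfold DI
  refine (card_union_le _ _).trans ?_
  have h1 : (E.natAbs.divisors.image (fun n : ℕ => (n : ℤ))).card ≤ E.natAbs.divisors.card :=
    card_image_le
  have h2 : (E.natAbs.divisors.image (fun n : ℕ => -(n : ℤ))).card ≤ E.natAbs.divisors.card :=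
    card_image_le
  omega

theorem EE_bound (k N : ℕ) (u : ℕ × ℕ × ℕ) (h1 : u.1 ≤ N) (h2 : u.2.1 ≤ N) (h3 : u.2.2 ≤ N) :
    (EE k u).natAbs ≤ 4 * (2 * N) ^ k := by
  have a1 : ∀ x : ℤ, |x| ≤ 2 * N → |x ^ k| ≤ (2 * (N : ℤ)) ^ k := by
    intro x hx
    rw [abs_pow]
    exact pow_le_pow_left₀ (abs_nonneg _) hx k
  have b1 := a1 (u.1 : ℤ) (by rw [abs_le]; constructor <;> omega)
  have b2 := a1 (u.2.1 : ℤ) (by rw [abs_le]; constructor <;> omega)
  have b3 := a1 (u.2.2 : ℤ) (by rw [abs_le]; constructor <;> omega)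
  have b4 := a1 ((u.2.1 : ℤ) + u.2.2 - u.1) (by rw [abs_le]; constructor <;> omega)
  have h5 : |EE k u| ≤ 4 * (2 * (N : ℤ)) ^ k := by
    unfold EE
    rw [abs_le] at b1 b2 b3 b4 ⊢
    constructor <;> linarith [b1.1, b1.2, b2.1, b2.2, b3.1, b3.2, b4.1, b4.2]
  have h6 : (((EE k u).natAbs : ℕ) : ℤ) ≤ ((4 * (2 * N) ^ k : ℕ) : ℤ) := by
    rw [Int.natCast_natAbs]
    push_cast
    exact h5
  exact_mod_cast h6

theorem quad_count (k N D : ℕ) (hk : 2 ≤ k)
    (hD : ∀ A : ℕ, 1 ≤ A → A ≤ 4 * (2 * N) ^ k → A.divisors.card ≤ D) :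
    J 3 k N ≤ N ^ 3 * (4 * D ^ 2 + 4) := by
  classical
  set S : Finset ((Fin 3 → ℕ) × (Fin 3 → ℕ)) := ((tup 3 N) ×ˢ (tup 3 N)).filter
    (fun z => ∑ i, z.1 i = ∑ i, z.2 i ∧ ∑ i, z.1 i ^ k = ∑ i, z.2 i ^ k) with hS
  have hJ : J 3 k N = S.card := rfl
  let g : (Fin 3 → ℕ) × (Fin 3 → ℕ) → ℕ × ℕ × ℕ := fun z => (z.1 0, z.2 1, z.2 2)
  let U : Finset (ℕ × ℕ × ℕ) := Icc 1 N ×ˢ Icc 1 N ×ˢ Icc 1 N
  have hU : U.card = N ^ 3 := by
    simp only [U, card_product, Nat.card_Icc, Nat.add_sub_cancel]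
    ring
  -- facts about the solutions
  have hfac : ∀ z ∈ S, (∀ i, 1 ≤ z.1 i ∧ z.1 i ≤ N) ∧ (∀ i, 1 ≤ z.2 i ∧ z.2 i ≤ N) ∧
      (z.1 0 : ℤ) + z.1 1 + z.1 2 = z.2 0 + z.2 1 + z.2 2 ∧
      (z.1 0 : ℤ) ^ k + (z.1 1 : ℤ) ^ k + (z.1 2 : ℤ) ^ k =
        (z.2 0 : ℤ) ^ k + (z.2 1 : ℤ) ^ k + (z.2 2 : ℤ) ^ k := by
    intro z hz
    rw [hS, mem_filter, mem_product] at hz
    obtain ⟨⟨h1, h2⟩, h3, h4⟩ := hz
    unfold Pool.Agent.TH181.MW.tup at h1 h2
    rw [Fintype.mem_piFinset] at h1 h2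
    simp only [Fin.sum_univ_three] at h3 h4
    exact ⟨fun i => mem_Icc.1 (h1 i), fun i => mem_Icc.1 (h2 i), by exact_mod_cast h3,
      by exact_mod_cast h4⟩
  have hgU : ∀ z ∈ S, g z ∈ U := by
    intro z hz
    obtain ⟨h1, h2, -⟩ := hfac z hz
    simp only [U, g, mem_product, mem_Icc]
    exact ⟨h1 0, h2 1, h2 2⟩
  -- the solutions with nonzero number
  have hS1 : (S.filter (fun z => EE k (g z) ≠ 0)).card ≤ N ^ 3 * (4 * D ^ 2) := by
    let T : Finset (Σ _ : ℕ × ℕ × ℕ, ℤ × ℤ) :=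
      (U.filter (fun u => EE k u ≠ 0)).sigma (fun u => DI (EE k u) ×ˢ DI (EE k u))
    have hT : T.card ≤ N ^ 3 * (4 * D ^ 2) := by
      rw [card_sigma]
      calc ∑ u ∈ U.filter (fun u => EE k u ≠ 0), (DI (EE k u) ×ˢ DI (EE k u)).card ≤
          ∑ _u ∈ U.filter (fun u => EE k u ≠ 0), 4 * D ^ 2 := by
            refine sum_le_sum fun u hu => ?_
            rw [mem_filter] at hu
            obtain ⟨hu1, hu2⟩ := hu
            simp only [U, mem_product, mem_Icc] at hu1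
            have h1 := card_DI (EE k u)
            have h2 := hD (EE k u).natAbs (Nat.one_le_iff_ne_zero.2 (Int.natAbs_ne_zero.2 hu2))
              (EE_bound k N u hu1.1.2 hu1.2.1.2 hu1.2.2.2)
            rw [card_product]
            have h3 : (DI (EE k u)).card ≤ 2 * D := by omega
            calc (DI (EE k u)).card * (DI (EE k u)).card ≤ (2 * D) * (2 * D) :=
                  Nat.mul_le_mul h3 h3
              _ = 4 * D ^ 2 := by ring
        _ ≤ N ^ 3 * (4 * D ^ 2) := by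
            rw [sum_const, smul_eq_mul]
            refine Nat.mul_le_mul_right _ ?_
            rw [← hU]
            exact card_filter_le _ _
    refine le_trans ?_ hT
    refine card_le_card_of_injOn (fun z => (⟨g z, ((z.1 1 : ℤ) - z.2 0, (z.1 2 : ℤ) - z.2 0)⟩ :
      Σ _ : ℕ × ℕ × ℕ, ℤ × ℤ)) ?_ ?_
    · intro z hz
      rw [mem_coe, mem_filter] at hz
      obtain ⟨hz, hE⟩ := hz
      obtain ⟨h1, h2, h3, h4⟩ := hfac z hz
      have e0 : EE k (g z) = (z.1 1 : ℤ) ^ k + (z.1 2 : ℤ) ^ k - (z.2 0 : ℤ) ^ k -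
          ((z.2 1 : ℤ) + z.2 2 - z.1 0) ^ k := by
        show (z.2 1 : ℤ) ^ k + (z.2 2 : ℤ) ^ k - (z.1 0 : ℤ) ^ k -
          ((z.2 1 : ℤ) + z.2 2 - z.1 0) ^ k = _
        linarith
      refine mem_coe.2 (mem_sigma.2 ⟨mem_filter.2 ⟨hgU z hz, hE⟩, mem_product.2 ⟨?_, ?_⟩⟩)
      · refine mem_DI hE ?_
        show (z.1 1 : ℤ) - z.2 0 ∣ EE k (g z)
        rw [e0]
        exact dvd1 k _ _ _ _ (by linarith)
      · refine mem_DI hE ?_
        show (z.1 2 : ℤ) - z.2 0 ∣ EE k (g z)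
        rw [e0]
        have := dvd1 k (z.1 2 : ℤ) (z.1 1 : ℤ) (z.2 0 : ℤ) ((z.2 1 : ℤ) + z.2 2 - z.1 0)
          (by linarith)
        have e1 : (z.1 1 : ℤ) ^ k + (z.1 2 : ℤ) ^ k - (z.2 0 : ℤ) ^ k -
          ((z.2 1 : ℤ) + z.2 2 - z.1 0) ^ k = (z.1 2 : ℤ) ^ k + (z.1 1 : ℤ) ^ k - (z.2 0 : ℤ) ^ k -
          ((z.2 1 : ℤ) + z.2 2 - z.1 0) ^ k := by ring
        rw [e1]
        exact this
    · intro z hz z' hz' h
      rw [mem_coe, mem_filter] at hz hz'
      obtain ⟨-, -, h3, -⟩ := hfac z hz.1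
      obtain ⟨-, -, h3', -⟩ := hfac z' hz'.1
      simp only [Sigma.mk.injEq, heq_eq_eq, Prod.mk.injEq, g] at h
      obtain ⟨⟨a1, a2, a3⟩, a4, a5⟩ := h
      have b0 : z.2 0 = z'.2 0 := by
        have : (z.2 0 : ℤ) = z'.2 0 := by
          have c1 : (z.1 0 : ℤ) = z'.1 0 := by exact_mod_cast a1
          have c2 : (z.2 1 : ℤ) = z'.2 1 := by exact_mod_cast a2
          have c3 : (z.2 2 : ℤ) = z'.2 2 := by exact_mod_cast a3
          linarith
        exact_mod_cast this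
      have b1 : z.1 1 = z'.1 1 := by
        have c0 : (z.2 0 : ℤ) = z'.2 0 := by exact_mod_cast b0
        have : (z.1 1 : ℤ) = z'.1 1 := by linarith
        exact_mod_cast this
      have b2 : z.1 2 = z'.1 2 := by
        have c0 : (z.2 0 : ℤ) = z'.2 0 := by exact_mod_cast b0
        have : (z.1 2 : ℤ) = z'.1 2 := by linarith
        exact_mod_cast this
      refine Prod.ext ?_ ?_
      · funext i
        fin_cases i
        · exact a1
        · exact b1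
        · exact b2
      · funext i
        fin_cases i
        · exact b0
        · exact a2
        · exact a3
  -- the other solutions
  have hS2 : (S.filter (fun z => ¬ EE k (g z) ≠ 0)).card ≤ N ^ 3 * 4 := by
    let V : Finset ((Fin 3 → ℕ) × (Bool × Bool)) := tup 3 N ×ˢ univ
    have hV : V.card = N ^ 3 * 4 := by
      simp only [V, card_product, tup_card, card_univ, Fintype.card_prod, Fintype.card_bool]
    rw [← hV]
    refine card_le_card_of_injOn (fun z => (z.2, (decide (z.1 0 = z.2 1), decide (z.1 1 = z.2 0)))) ?_ ?_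
    · intro z hz
      rw [mem_coe, mem_filter, hS, mem_filter, mem_product] at hz
      simp only [V, mem_coe, mem_product, mem_univ, and_true]
      exact hz.1.1.2
    · intro z hz z' hz' h
      have key : ∀ z ∈ S, EE k (g z) = 0 → (z.1 0 = z.2 1 ∨ z.1 0 = z.2 2) ∧
          (z.2 0 = z.1 1 ∨ z.2 0 = z.1 2) := by
        intro z hz hE
        obtain ⟨h1, h2, h3, h4⟩ := hfac z hz
        have hE' : (z.2 1 : ℤ) ^ k + (z.2 2 : ℤ) ^ k - (z.1 0 : ℤ) ^ k -
          ((z.2 1 : ℤ) + z.2 2 - z.1 0) ^ k = 0 := hE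
        refine ⟨pair_eq k _ _ _ ((z.2 1 : ℤ) + z.2 2 - z.1 0) hk (h2 1).1 (h2 2).1 (by ring)
          (by linarith), pair_eq k _ _ _ ((z.2 1 : ℤ) + z.2 2 - z.1 0) hk (h1 1).1 (h1 2).1
          (by linarith) (by linarith)⟩
      rw [mem_coe, mem_filter, not_not] at hz hz'
      obtain ⟨p1, p2⟩ := key z hz.1 hz.2
      obtain ⟨p1', p2'⟩ := key z' hz'.1 hz'.2
      obtain ⟨-, -, h3, -⟩ := hfac z hz.1
      obtain ⟨-, -, h3', -⟩ := hfac z' hz'.1
      simp only [Prod.mk.injEq, decide_eq_decide] at h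
      obtain ⟨q1, q2, q3⟩ := h
      rw [← q1] at q2 q3 p1' p2' h3'
      have h5 : z.1 0 + z.1 1 + z.1 2 = z.2 0 + z.2 1 + z.2 2 := by exact_mod_cast h3
      have h5' : z'.1 0 + z'.1 1 + z'.1 2 = z.2 0 + z.2 1 + z.2 2 := by exact_mod_cast h3'
      refine Prod.ext ?_ q1
      have r0 : z.1 0 = z'.1 0 := by
        by_cases hh : z.1 0 = z.2 1
        · rw [hh, q2.1 hh]
        · have hh' : ¬ z'.1 0 = z.2 1 := fun h => hh (q2.2 h)
          rw [p1.resolve_left hh, p1'.resolve_left hh']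
      have r1 : z.1 1 = z'.1 1 ∧ z.1 2 = z'.1 2 := by
        by_cases hh : z.1 1 = z.2 0
        · have hh' := q3.1 hh
          constructor
          · rw [hh, hh']
          · omega
        · have hh' : ¬ z'.1 1 = z.2 0 := fun h => hh (q3.2 h)
          have t1 : z.2 0 = z.1 2 := p2.resolve_left (fun h => hh h.symm)
          have t2 : z.2 0 = z'.1 2 := p2'.resolve_left (fun h => hh' h.symm)
          constructor
          · omega
          · omega
      funext i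
      fin_cases i
      · exact r0
      · exact r1.1
      · exact r1.2
  rw [hJ, ← card_filter_add_card_filter_not (fun z => EE k (g z) ≠ 0)]
  calc _ ≤ N ^ 3 * (4 * D ^ 2) + N ^ 3 * 4 := Nat.add_le_add hS1 hS2
    _ = _ := by ring

/-- **six variables** -/
theorem quad (k : ℕ) (hk : 2 ≤ k) : BdJ 3 3 k := by
  intro δ hδ
  have hk0 : (0 : ℝ) < k := by
    have : 0 < k := by omega
    exact_mod_cast this
  set δ' : ℝ := δ / (2 * k) with hδ'
  have hδ'0 : 0 < δ' := by positivity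
  obtain ⟨C0, hC00, hdiv⟩ := Pool.Agent.Helper112.divisor_bound δ' hδ'0
  set C1 : ℝ := C0 * ((4 : ℝ) * 2 ^ k) ^ δ' with hC1
  have hC10 : 0 < C1 := by positivity
  refine ⟨4 * C1 ^ 2 + 4, by positivity, fun N hN => ?_⟩
  have hN' : (1 : ℝ) ≤ (N : ℝ) := by exact_mod_cast hN
  have hN0 : (0 : ℝ) < (N : ℝ) := by linarith
  set D : ℕ := ⌊C0 * ((4 : ℝ) * (2 * (N : ℝ)) ^ k) ^ δ'⌋₊ with hD
  have hDb : ∀ A : ℕ, 1 ≤ A → A ≤ 4 * (2 * N) ^ k → A.divisors.card ≤ D := by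
    intro A hA hA2
    rw [hD]
    apply Nat.le_floor
    refine (hdiv _ hA).trans ?_
    apply mul_le_mul_of_nonneg_left _ hC00.le
    apply Real.rpow_le_rpow (by positivity) _ hδ'0.le
    exact_mod_cast hA2
  have h1 := quad_count k N D hk hDb
  have h2 : (J 3 k N : ℝ) ≤ (N : ℝ) ^ 3 * (4 * (D : ℝ) ^ 2 + 4) := by exact_mod_cast h1
  refine h2.trans ?_
  have h3 : (D : ℝ) ≤ C0 * ((4 : ℝ) * (2 * (N : ℝ)) ^ k) ^ δ' := Nat.floor_le (by positivity)
  have h4 : ((4 : ℝ) * (2 * (N : ℝ)) ^ k) ^ δ' = ((4 : ℝ) * 2 ^ k) ^ δ' * (N : ℝ) ^ (k * δ') := by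
    rw [mul_pow, ← mul_assoc, Real.mul_rpow (by positivity) (by positivity),
      ← Real.rpow_natCast (N : ℝ) k, ← Real.rpow_mul hN0.le]
  rw [h4, ← mul_assoc, ← hC1] at h3
  have h5 : (D : ℝ) ^ 2 ≤ (C1 * (N : ℝ) ^ (k * δ')) ^ 2 := pow_le_pow_left₀ (Nat.cast_nonneg _) h3 2
  have h6 : (C1 * (N : ℝ) ^ (k * δ')) ^ 2 = C1 ^ 2 * (N : ℝ) ^ δ := by
    have : ((N : ℝ) ^ (k * δ')) ^ 2 = (N : ℝ) ^ δ := by
      rw [← Real.rpow_natCast ((N : ℝ) ^ (k * δ')) 2, ← Real.rpow_mul hN0.le]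
      congr 1
      rw [hδ']
      push_cast
      field_simp
    rw [← this]
    ring
  rw [h6] at h5
  have h7 : (1 : ℝ) ≤ (N : ℝ) ^ δ := Real.one_le_rpow hN' hδ.le
  have h8 : 4 * (D : ℝ) ^ 2 + 4 ≤ (4 * C1 ^ 2 + 4) * (N : ℝ) ^ δ := by nlinarith
  calc (N : ℝ) ^ 3 * (4 * (D : ℝ) ^ 2 + 4) ≤ (N : ℝ) ^ 3 * ((4 * C1 ^ 2 + 4) * (N : ℝ) ^ δ) :=
        mul_le_mul_of_nonneg_left h8 (by positivity)
    _ = (4 * C1 ^ 2 + 4) * ((N : ℝ) ^ (3 : ℝ) * (N : ℝ) ^ δ) := by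
        rw [← Real.rpow_natCast (N : ℝ) 3]
        push_cast
        ring
    _ = _ := by
        rw [← Real.rpow_add hN0]
        congr 2
        push_cast
        ring

theorem hua (k : ℕ) (hk : 3 ≤ k) : ∀ i : ℕ, 1 ≤ i → i < k → BdJ (1 + 2 ^ i) (i + 2) k := by
  intro i hi
  induction i, hi using Nat.le_induction with
  | base =>
    intro _
    exact quad k (by omega)
  | succ i hi ih =>
    intro h1
    have h2 := step (1 + 2 ^ i) (i + 2) k i (Nat.le_add_right_of_le (by norm_num)) hi h1 (by omega)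
      (ih (by omega))
    have e1 : 1 + 2 ^ i + 2 ^ i = 1 + 2 ^ (i + 1) := by rw [pow_succ]; ring
    rw [e1] at h2
    exact h2

end Pool.Agent.N755.WS
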